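import Pool.Agent.Q284.K.Lim
import Pool.Agent.TH942.OS.Curve
import Pool.Agent.TH270.MS.EQ3

/-!
# Finite-range means of an elliptic curve
-/

set_option autoImplicit false

open MeasureTheory Filter Topology Set Classical
open Pool.Agent.W263.BSD Pool.Agent.W189.ML

namespace Pool.Agent.Q284.K

variable {a b : ℤ} {F : ℂ → ℂ}

/-- weights of finite range `β` -/
structure FiniteRange (w : ℝ → ℝ) (β : ℝ) : Prop where
  meas : Measurable w
  bounded : ∃ W : ℝ, ∀ u, |w u| ≤ W
  pos : 0 < β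
  zero : ∀ u, β < u → w u = 0
  ess : ∀ κ < β, ¬ ∀ᵐ u, u ∈ Ioo κ β → w u = 0

/-- `w(u) → 1` in the mean as `u → 0` -/
def Normalized (w : ℝ → ℝ) (β : ℝ) : Prop := IntegrableOn (fun u : ℝ => |w u - 1| / u) (Ioo 0 β)

theorem FiniteRange.wt {w : ℝ → ℝ} {β : ℝ} (h : FiniteRange w β) :
    ∃ W, Pool.Agent.TH942.LS.Wt w W β := by
  obtain ⟨W, hW⟩ := h.bounded
  exact ⟨W, h.meas, hW, h.pos, h.zero⟩

/-- the tent -/
noncomputable def tent (u : ℝ) : ℝ := max 0 (1 - |u|)

theorem tent_lip : LipschitzWith 1 tent := by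
  refine LipschitzWith.of_dist_le_mul fun x y => ?_
  rw [Real.dist_eq, Real.dist_eq, NNReal.coe_one, one_mul]
  unfold tent
  refine (abs_max_sub_max_le_max _ _ _ _).trans ?_
  rw [sub_self, abs_zero, max_eq_right (abs_nonneg _)]
  have h1 : 1 - |x| - (1 - |y|) = |y| - |x| := by ring
  rw [h1, abs_sub_comm x y]
  exact abs_abs_sub_abs_le_abs_sub y x

theorem tent_zero : tent 0 = 1 := by unfold tent; simp

theorem tent_supp (u : ℝ) (hu : 1 < u) : tent u = 0 := by
  unfold tent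
  rw [abs_of_pos (by linarith)]
  exact max_eq_left (by linarith)

theorem tent_nonneg (u : ℝ) : 0 ≤ tent u := le_max_left _ _

theorem tent_range : FiniteRange tent 1 where
  meas := tent_lip.continuous.measurable
  bounded := by
    refine ⟨1, fun u => ?_⟩
    rw [abs_of_nonneg (tent_nonneg u)]
    unfold tent
    exact max_le zero_le_one (by linarith [abs_nonneg u])
  pos := one_pos
  zero := tent_supp
  ess := by
    intro κ hκ h
    have h1 : ∀ u ∈ Ioo (max κ 0) 1, tent u ≠ 0 := by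
      intro u hu
      have h2 : 0 < u := (le_max_right _ _).trans_lt hu.1
      unfold tent
      rw [abs_of_pos h2, max_eq_right (by linarith [hu.2])]
      linarith [hu.2]
    have h2 : volume (Ioo (max κ 0) 1) = 0 := by
      refine measure_mono_null ?_ (ae_iff.1 h)
      intro u hu hcon
      exact h1 u hu (hcon ⟨(le_max_left _ _).trans_lt hu.1, hu.2⟩)
    rw [Real.volume_Ioo, ENNReal.ofReal_eq_zero, sub_nonpos] at h2
    have : max κ 0 < 1 := max_lt hκ one_pos
    linarith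

theorem tent_norm : Normalized tent 1 := by
  unfold Normalized
  have h1 : IntegrableOn (fun _ : ℝ => (1 : ℝ)) (Ioo 0 1) := by
    refine integrableOn_const (by simp)
  refine h1.congr_fun (fun u hu => ?_) measurableSet_Ioo
  simp only
  unfold tent
  have h2 := hu.1
  have h3 := hu.2
  rw [abs_of_pos h2, max_eq_right (by linarith)]
  have h4 : 1 - u - 1 = -u := by ring
  rw [h4, abs_neg, abs_of_pos h2, div_self h2.ne']

/-! ### zeros force large means -/

theorem omega (hF : IsLSeries a b F) {w : ℝ → ℝ} {β : ℝ} (hw : FiniteRange w β) {s : ℂ}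
    (hs : 1 < s.re) (h0 : F s = 0) {α : ℝ} (C : ℝ) (hα : α < β * (s.re - 1)) :
    ∃ᶠ X : ℝ in atTop, C * X ^ α < |mean a b w β X| := by
  obtain ⟨W, hW⟩ := hw.wt
  intro h
  refine Pool.Agent.TH942.LS.omega hF hW hw.ess hs h0 (C := C) hα ?_
  filter_upwards [h] with X hX
  exact not_lt.1 hX

theorem mean_S {w : ℝ → ℝ} {W β X : ℝ} (hw : Pool.Agent.TH942.LS.Wt w W β) (hX : 1 < X) :
    Pool.Agent.TH942.LS.S Pool.Agent.TH942.LS.lm (Pool.Agent.TH942.LS.cE a b) w (Real.log X) =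
      mean a b w β X := Pool.Agent.TH942.LS.S_finite w hw hX

/-- no zeros from subexponential growth, including the removed factors -/
theorem no_zeros_full (hF : IsLSeries a b F) {w : ℝ → ℝ} {W β : ℝ}
    (hw : Pool.Agent.TH942.LS.Wt w W β)
    (ess : ∀ κ < β, ¬ ∀ᵐ u, u ∈ Ioo κ β → w u = 0) {ρ : ℝ}
    (hlim : Tendsto (fun T => Pool.Agent.TH942.LS.S Pool.Agent.TH942.LS.lm
      (Pool.Agent.TH942.LS.cE a b) w T / Real.log T) atTop (𝓝 ρ)) :
    ∀ s : ℂ, 0 < s.re → PhiF a b F s ≠ 0 := by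
  intro s hs
  refine Pool.Agent.TH942.LS.no_zeros (Pool.Agent.TH942.LS.dat a b) hw
    (Pool.Agent.TH942.LS.cont hF (θ := 0) le_rfl) ess ?_ hs
  intro α hα
  rw [mul_zero] at hα
  have h1 := (Metric.tendsto_nhds.1 hlim) 1 one_pos
  obtain ⟨T₀, hT₀⟩ := (h1.and (eventually_ge_atTop 2)).exists_forall_of_atTop
  refine ⟨(|ρ| + 1) / α, T₀, fun T hT => ?_⟩
  obtain ⟨h2, h3⟩ := hT₀ T hT
  have h4 : 0 < Real.log T := Real.log_pos (by linarith)
  rw [Real.dist_eq] at h2
  have h5 := abs_sub_abs_le_abs_sub (Pool.Agent.TH942.LS.S Pool.Agent.TH942.LS.lm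
      (Pool.Agent.TH942.LS.cE a b) w T / Real.log T) ρ
  have h6 : |Pool.Agent.TH942.LS.S Pool.Agent.TH942.LS.lm
      (Pool.Agent.TH942.LS.cE a b) w T / Real.log T| ≤ |ρ| + 1 := by linarith
  rw [abs_div, abs_of_pos h4, div_le_iff₀ h4] at h6
  have h7 : Real.log T ≤ T := by
    have := Real.log_le_sub_one_of_pos (by linarith : 0 < T)
    linarith
  have h8 : α * T ≤ Real.exp (α * T) := by
    have := Real.add_one_le_exp (α * T)
    linarith
  have hρ : 0 ≤ |ρ| + 1 := by positivity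
  calc _ ≤ (|ρ| + 1) * Real.log T := h6
    _ ≤ (|ρ| + 1) * T := by gcongr
    _ = (|ρ| + 1) / α * (α * T) := by field_simp
    _ ≤ _ := by gcongr

theorem F_ne_of (h : ∀ s : ℂ, 0 < s.re → PhiF a b F s ≠ 0) : ∀ s : ℂ, 1 < s.re → F s ≠ 0 := by
  intro s hs h0
  refine h (s - 1) (by simpa using hs) ?_
  unfold PhiF
  rw [add_sub_cancel, h0, zero_mul]

/-- **The law for one weight gives the Riemann hypothesis and the order.** -/
theorem of_law (hF : IsLSeries a b F) {m : ℕ} (hm : analyticOrderAt F 1 = m) {w : ℝ → ℝ} {β : ℝ}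
    (hw : FiniteRange w β) (hn : Normalized w β) {ρ : ℝ}
    (hlim : Tendsto (fun X => mean a b w β X / Real.log (Real.log X)) atTop (𝓝 ρ)) :
    (∀ s : ℂ, 1 < s.re → F s ≠ 0) ∧ ρ = m := by
  obtain ⟨W, hW⟩ := hw.wt
  have h1 : Tendsto (fun T => Pool.Agent.TH942.LS.S Pool.Agent.TH942.LS.lm
      (Pool.Agent.TH942.LS.cE a b) w T / Real.log T) atTop (𝓝 ρ) := by
    refine (hlim.comp Real.tendsto_exp_atTop).congr' ?_
    filter_upwards [eventually_gt_atTop 0] with T hT
    have h2 := mean_S (a := a) (b := b) hW (Real.one_lt_exp_iff.2 hT)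
    rw [Real.log_exp] at h2
    simp only [Function.comp_apply]
    rw [Real.log_exp, h2]
  have hne := no_zeros_full hF hW hw.ess h1
  exact ⟨F_ne_of hne, Pool.Agent.TH942.LS.growth_eq_order hF hne hm hW hn h1⟩

/-- **One-sided bounds for one nonnegative weight.** -/
theorem of_upper (hF : IsLSeries a b F) {m : ℕ} (hm : analyticOrderAt F 1 = m) {w : ℝ → ℝ} {β : ℝ}
    (hw : FiniteRange w β) (hw0 : ∀ u, 0 ≤ w u) (hn : Normalized w β) {ρ : ℝ}
    (hU : ∀ ε : ℝ, 0 < ε → ∀ᶠ X : ℝ in atTop,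
      mean a b w β X ≤ (ρ + ε) * Real.log (Real.log X)) :
    (∀ s : ℂ, 1 < s.re → F s ≠ 0) ∧ (m : ℝ) ≤ ρ := by
  obtain ⟨W, hW⟩ := hw.wt
  obtain ⟨h1, h2⟩ := Pool.Agent.TH942.OS.order_le hF hm hW hw0 hw.ess hn (ρ := ρ) fun ε hε => by
    filter_upwards [Real.tendsto_exp_atTop.eventually (hU ε hε), eventually_gt_atTop 0]
      with T hT hT0
    rw [Real.log_exp] at hT
    have h2 := mean_S (a := a) (b := b) hW (Real.one_lt_exp_iff.2 hT0)
    rw [Real.log_exp] at h2
    rw [h2]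
    exact hT
  exact ⟨F_ne_of h1, h2⟩

/-! ### the leading coefficient -/

theorem small_pos (a b : ℤ) {w : ℝ} (hw : 0 ≤ w) : ∃ y : ℝ, 0 < y ∧ small a b w = y := by
  unfold small
  have : ∀ s : Finset ℕ, ∃ y : ℝ, 0 < y ∧
      (∏ p ∈ s, if GoodPrime a b p then ef a b p w else 1) = (y : ℂ) := by
    intro s
    induction s using Finset.induction_on with
    | empty => exact ⟨1, one_pos, by simp⟩
    | insert p s hps ih =>
      obtain ⟨y, hy, he⟩ := ih
      rw [Finset.prod_insert hps, he]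
      split_ifs with hg
      · obtain ⟨z, hz, he'⟩ := ef_real_pos (a := a) (b := b) hg.1 hw
        exact ⟨z * y, mul_pos hz hy, by rw [he']; push_cast; ring⟩
      · exact ⟨y, hy, by rw [one_mul]⟩
  exact this _

theorem F_real_pos (hF : IsLSeries a b F) (hne : ∀ s : ℂ, 1 < s.re → F s ≠ 0) {v : ℝ}
    (hv : 0 < v) : F (1 + v) = (‖F (1 + v)‖ : ℂ) := by
  have hP : ∀ x : ℝ, 0 < x → PhiF a b F x ≠ 0 := by
    intro x hx
    unfold PhiF
    refine mul_ne_zero (hne _ ?_) (small_ne_zero_real hx.le)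
    simpa using hx
  have hpos : 0 < (PhiF a b F v).re := by
    by_contra h
    push Not at h
    have hc : ContinuousOn (fun x : ℝ => (PhiF a b F x).re) (Ioi 0) := by
      have h1 : Continuous (PhiF a b F) := (PhiF_differentiable hF).continuous
      exact (Complex.continuous_re.comp (h1.comp Complex.continuous_ofReal)).continuousOn
    have h2 := PhiF_two_pos hF
    have h3 : (0 : ℝ) ∈ (fun x : ℝ => (PhiF a b F x).re) '' Ioi 0 := by
      refine (isPreconnected_Ioi.intermediate_value (show v ∈ Ioi (0 : ℝ) from hv)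
        (show (2 : ℝ) ∈ Ioi (0 : ℝ) by simp) hc) ⟨h, ?_⟩
      simpa using h2.le
    obtain ⟨x, hx, h4⟩ := h3
    refine hP x hx ?_
    apply Complex.ext
    · simpa using h4
    · simpa using PhiF_real hF x
  obtain ⟨y, hy, he⟩ := small_pos a b hv.le
  have h1 : PhiF a b F v = (((PhiF a b F v).re : ℝ) : ℂ) := by
    apply Complex.ext
    · simp
    · simpa using PhiF_real hF v
  have h2 : F (1 + v) = (((PhiF a b F v).re / y : ℝ) : ℂ) := by
    have h3 : F (1 + v) * (y : ℂ) = (((PhiF a b F v).re : ℝ) : ℂ) := by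
      rw [← h1, ← he]
      rfl
    have hyc : (y : ℂ) ≠ 0 := by exact_mod_cast hy.ne'
    rw [eq_div_iff hyc |>.mpr h3]
    push_cast
    rfl
  rw [h2, Complex.norm_real, Real.norm_of_nonneg (div_pos hpos hy).le]

/-- Goldfeld's constant -/
noncomputable def TG (F : ℂ → ℂ) (m : ℕ) : ℝ :=
  √2 * Real.exp (m * Real.eulerMascheroniConstant) * (m.factorial : ℝ) / ‖iteratedDeriv m F 1‖

theorem TG_pos (hF : IsLSeries a b F) {m : ℕ} (hm : analyticOrderAt F 1 = m) : 0 < TG F m := by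
  obtain ⟨h1, -⟩ := lead_limit hF.1 hm
  unfold leadAbs at h1
  have h2 : (0 : ℝ) < m.factorial := by exact_mod_cast m.factorial_pos
  have h3 : 0 < ‖iteratedDeriv m F 1‖ := by
    rw [div_pos_iff] at h1
    rcases h1 with h1 | h1
    · exact h1.1
    · linarith [h1.2]
  unfold TG
  positivity

theorem lead_real (hF : IsLSeries a b F) {m : ℕ} (hm : analyticOrderAt F 1 = m)
    (hne : ∀ s : ℂ, 1 < s.re → F s ≠ 0) :
    iteratedDeriv m F 1 / (m.factorial : ℂ) =
      ((√2 * Real.exp (m * Real.eulerMascheroniConstant) / TG F m : ℝ) : ℂ) := by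
  obtain ⟨hpos, hlim⟩ := lead_limit hF.1 hm
  obtain ⟨-, h2⟩ := Pool.Agent.TH270.MS.EQ.coeff_lim hF.1 hm
  have h6 : Tendsto (fun w : ℝ => (w : ℂ)) (𝓝[>] 0) (𝓝[≠] 0) := by
    refine tendsto_nhdsWithin_iff.2 ⟨?_, ?_⟩
    · have := Complex.continuous_ofReal.tendsto 0
      rw [Complex.ofReal_zero] at this
      exact tendsto_nhdsWithin_of_tendsto_nhds this
    · filter_upwards [self_mem_nhdsWithin] with x hx
      have hx0 : (0 : ℝ) < x := hx
      have : (x : ℂ) ≠ 0 := by exact_mod_cast hx0.ne'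
      exact this
  have h7 := h2.comp h6
  have h8 : Tendsto (fun w : ℝ => ((‖F (1 + w)‖ / w ^ m : ℝ) : ℂ)) (𝓝[>] 0)
      (𝓝 (leadAbs F m : ℂ)) := (Complex.continuous_ofReal.tendsto _).comp hlim
  have h9 : iteratedDeriv m F 1 / (m.factorial : ℂ) = (leadAbs F m : ℂ) := by
    refine tendsto_nhds_unique h7 (h8.congr' ?_)
    filter_upwards [self_mem_nhdsWithin] with w hw
    simp only [Function.comp_apply]
    push_cast
    rw [← F_real_pos hF hne hw]
  rw [h9]
  have e1 : √2 * Real.exp (m * Real.eulerMascheroniConstant) / TG F m = leadAbs F m := by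
    unfold TG
    unfold leadAbs at hpos ⊢
    have h2 : (0 : ℝ) < m.factorial := by exact_mod_cast m.factorial_pos
    have h3 : 0 < ‖iteratedDeriv m F 1‖ := by
      rw [div_pos_iff] at hpos
      rcases hpos with h1 | h1
      · exact h1.1
      · linarith [h1.2]
    have h4 := Real.exp_pos (m * Real.eulerMascheroniConstant)
    field_simp
  rw [e1]

/-! ### the law for Lipschitz weights -/

theorem subst_exp {f : ℝ → ℝ} {V : ℝ} (hV : 1 ≤ V) :
    ∫ x in Real.exp 1..Real.exp V, f x / x = ∫ v in (1 : ℝ)..V, f (Real.exp v) := by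
  have h1 : Real.exp 1 ≤ Real.exp V := Real.exp_le_exp.2 hV
  rw [intervalIntegral.integral_of_le h1, intervalIntegral.integral_of_le hV]
  have h2 : Real.exp '' Ioc 1 V = Ioc (Real.exp 1) (Real.exp V) := by
    ext x
    simp only [mem_image, mem_Ioc]
    constructor
    · rintro ⟨v, ⟨h3, h4⟩, rfl⟩
      exact ⟨Real.exp_lt_exp.2 h3, Real.exp_le_exp.2 h4⟩
    · rintro ⟨h3, h4⟩
      have hx : 0 < x := (Real.exp_pos 1).trans h3
      refine ⟨Real.log x, ⟨?_, ?_⟩, Real.exp_log hx⟩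
      · rwa [Real.lt_log_iff_exp_lt hx]
      · rwa [Real.log_le_iff_le_exp hx]
  rw [← h2, integral_image_eq_integral_abs_deriv_smul measurableSet_Ioc
    (fun v _ => (Real.hasDerivAt_exp v).hasDerivWithinAt) Real.exp_injective.injOn]
  refine setIntegral_congr_fun measurableSet_Ioc fun v _ => ?_
  have h3 := Real.exp_pos v
  simp only [smul_eq_mul]
  rw [abs_of_pos h3]
  field_simp

theorem law_curve (hΔ : 4 * a ^ 3 + 27 * b ^ 2 ≠ 0) (hF : IsLSeries a b F)
    (hrs : Tendsto (rsSum a b) atTop (𝓝 0)) {η C₀ : ℝ} {κ : ℕ} (hη : 0 < η)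
    (hg : ∀ s : ℂ, 1 - η < s.re → ‖F s‖ ≤ C₀ * (1 + ‖s‖) ^ κ)
    {m : ℕ} (hm : analyticOrderAt F 1 = m) (hne : ∀ s : ℂ, 1 < s.re → F s ≠ 0)
    {w : ℝ → ℝ} {K : NNReal} {β : ℝ} (hw : LipschitzWith K w) (h0 : w 0 = 1) (hβ : 0 < β)
    (hs : ∀ u, β < u → w u = 0) :
    Tendsto (fun X : ℝ => mean a b w β X - m * Real.log (Real.log X)) atTop
      (𝓝 (m * J w + Real.log (TG F m))) := by
  have hT := TG_pos hF hm
  have t := (Pool.Agent.TH270.MS.EQ.curve_law hΔ hF hrs hη hg (m : ℝ) hT).out 0 1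
  have h1 := t.1 ⟨hne, m, rfl, hm, lead_real hF hm hne⟩
  have h2 : Tendsto (fun V : ℝ => (∫ v in (1 : ℝ)..V,
      |G a b v - (m * Real.log v + Real.log (TG F m))|) / V) atTop (𝓝 0) := by
    refine (h1.comp Real.tendsto_exp_atTop).congr' ?_
    filter_upwards [eventually_ge_atTop 1] with V hV
    simp only [Function.comp_apply]
    rw [subst_exp hV, Real.log_exp]
    congr 1
    refine intervalIntegral.integral_congr fun v hv => ?_
    rw [uIcc_of_le hV] at hv
    rw [Pool.Agent.TH270.MS.EQ.dev_eq hT (Real.exp_le_exp.2 hv.1), Real.log_exp]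
    unfold G
    congr 1
    ring
  have h3 := (law h2 hw h0 hβ hs).comp Real.tendsto_log_atTop
  refine h3.congr' ?_
  filter_upwards [eventually_gt_atTop 0] with X hX
  simp only [Function.comp_apply]
  rw [Real.exp_log hX]

theorem div_loglog {f : ℝ → ℝ} {ρ κ : ℝ}
    (h : Tendsto (fun X : ℝ => f X - ρ * Real.log (Real.log X)) atTop (𝓝 κ)) :
    Tendsto (fun X : ℝ => f X / Real.log (Real.log X)) atTop (𝓝 ρ) := by
  have hl : Tendsto (fun X : ℝ => Real.log (Real.log X)) atTop atTop :=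
    Real.tendsto_log_atTop.comp Real.tendsto_log_atTop
  have h1 := (h.div_atTop hl).const_add ρ
  rw [add_zero] at h1
  refine h1.congr' ?_
  filter_upwards [hl.eventually (eventually_gt_atTop 0)] with X hX
  field_simp
  ring

end Pool.Agent.Q284.K
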