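import Mathlib
import Pool.Agent.W263.BSD.OrderFinal

/-!
# Partial summation for the finite-range means of the original Birch and Swinnerton-Dyer products
-/

set_option autoImplicit false

open MeasureTheory Filter Topology Set Classical
open Pool.Agent.W263.BSD

namespace Pool.Agent.Q284.K

variable {a b : ℤ}

/-- `log ((N_p + 1)/p)` -/
noncomputable def g (a b : ℤ) (p : ℕ) : ℝ := Real.log (((pointCount a b p : ℝ) + 1) / p)

/-- `G(v) = log P(e^v)` -/
noncomputable def G (a b : ℤ) (v : ℝ) : ℝ := Real.log (bsdProduct a b (Real.exp v))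

/-- the mean with the weight `w` of range `β` -/
noncomputable def mean (a b : ℤ) (w : ℝ → ℝ) (β X : ℝ) : ℝ :=
  ∑ p ∈ (Finset.range (⌊X ^ β⌋₊ + 1)).filter (GoodPrime a b),
    w (Real.log p / Real.log X) * Real.log (((pointCount a b p : ℝ) + 1) / p)

/-- the good primes up to `x` -/
noncomputable def idx (a b : ℤ) (x : ℝ) : Finset ℕ :=
  (Finset.range (⌊x⌋₊ + 1)).filter (GoodPrime a b)

theorem mem_idx {x : ℝ} (hx : 0 ≤ x) {p : ℕ} : p ∈ idx a b x ↔ (p : ℝ) ≤ x ∧ GoodPrime a b p := by
  unfold idx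
  rw [Finset.mem_filter, Finset.mem_range, Nat.lt_succ_iff, Nat.le_floor_iff hx]

theorem mem_idx_exp {v : ℝ} {p : ℕ} :
    p ∈ idx a b (Real.exp v) ↔ Real.log p ≤ v ∧ GoodPrime a b p := by
  rw [mem_idx (Real.exp_pos v).le]
  refine ⟨fun h => ⟨?_, h.2⟩, fun h => ⟨?_, h.2⟩⟩
  · have hp : (0 : ℝ) < p := by exact_mod_cast h.2.1.pos
    rw [Real.log_le_iff_le_exp hp]
    exact h.1
  · have hp : (0 : ℝ) < p := by exact_mod_cast h.2.1.pos
    rw [← Real.log_le_iff_le_exp hp]
    exact h.1

theorem G_eq (v : ℝ) : G a b v = ∑ p ∈ idx a b (Real.exp v), g a b p := by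
  unfold G bsdProduct g idx
  rw [Real.log_prod]
  intro p hp
  have hp1 : 0 < (p : ℝ) := by exact_mod_cast (Finset.mem_filter.mp hp).2.1.pos
  positivity

/-- `G` on a bounded interval as a fixed finite sum -/
theorem G_ind {V v : ℝ} (hv : v ≤ V) :
    G a b v = ∑ p ∈ idx a b (Real.exp V), g a b p * (if Real.log p ≤ v then 1 else 0) := by
  rw [G_eq]
  simp only [mul_ite, mul_one, mul_zero]
  rw [← Finset.sum_filter]
  refine Finset.sum_congr ?_ fun _ _ => rfl
  ext p
  rw [Finset.mem_filter, mem_idx_exp, mem_idx_exp]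
  constructor
  · rintro ⟨h1, h2⟩
    exact ⟨⟨h1.trans hv, h2⟩, h1⟩
  · rintro ⟨⟨_, h2⟩, h1⟩
    exact ⟨h1, h2⟩

theorem mean_exp {w : ℝ → ℝ} {β T : ℝ} :
    mean a b w β (Real.exp T) = ∑ p ∈ idx a b (Real.exp (T * β)), w (Real.log p / T) * g a b p := by
  unfold mean idx g
  rw [← Real.exp_mul, Real.log_exp]

section

variable {w : ℝ → ℝ} {K : NNReal} {β T : ℝ}

theorem w_beta (hw : LipschitzWith K w) (hs : ∀ u, β < u → w u = 0) : w β = 0 := by
  have h1 : Tendsto w (𝓝[>] β) (𝓝 (w β)) := hw.continuous.continuousAt.mono_left nhdsWithin_le_nhds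
  have h2 : Tendsto w (𝓝[>] β) (𝓝 0) := by
    refine tendsto_const_nhds.congr' ?_
    filter_upwards [self_mem_nhdsWithin] with u hu
    exact (hs u hu).symm
  exact tendsto_nhds_unique h1 h2

theorem ftc (hw : LipschitzWith K w) (x y : ℝ) : ∫ u in x..y, deriv w u = w y - w x :=
  ((hw.lipschitzOnWith (s := uIcc x y)).absolutelyContinuousOnInterval).integral_deriv_eq_sub

theorem deriv_int (hw : LipschitzWith K w) (x y : ℝ) : IntegrableOn (deriv w) (Ioc x y) := by
  refine Measure.integrableOn_of_bounded (M := K) (by simp) (measurable_deriv w).aestronglyMeasurable ?_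
  exact Eventually.of_forall fun u => norm_deriv_le_of_lipschitz hw

theorem ind_int (hw : LipschitzWith K w) (hs : ∀ u, β < u → w u = 0) {c : ℝ} (hc : 0 < c)
    (hcb : c ≤ β) :
    ∫ u in Ioc 0 β, deriv w u * (if c ≤ u then 1 else 0) = -w c := by
  have h1 : (fun u => deriv w u * (if c ≤ u then (1 : ℝ) else 0)) = (Ici c).indicator (deriv w) := by
    ext u
    rw [indicator_apply]
    simp only [mem_Ici]
    split_ifs <;> simp
  rw [h1, setIntegral_indicator measurableSet_Ici]
  have h2 : Ioc 0 β ∩ Ici c = Icc c β := by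
    ext u
    simp only [mem_inter_iff, mem_Ioc, mem_Ici, mem_Icc]
    constructor
    · rintro ⟨⟨_, h3⟩, h4⟩
      exact ⟨h4, h3⟩
    · rintro ⟨h3, h4⟩
      exact ⟨⟨by linarith, h4⟩, h3⟩
  rw [h2, integral_Icc_eq_integral_Ioc, ← intervalIntegral.integral_of_le hcb, ftc hw, w_beta hw hs,
    zero_sub]

theorem ind_integrable (hw : LipschitzWith K w) (c x y : ℝ) :
    IntegrableOn (fun u => deriv w u * (if c ≤ u then (1 : ℝ) else 0)) (Ioc x y) := by
  refine Measure.integrableOn_of_bounded (M := K) (by simp) ?_ ?_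
  · refine ((measurable_deriv w).mul ?_).aestronglyMeasurable
    exact Measurable.ite measurableSet_Ici measurable_const measurable_const
  · refine Eventually.of_forall fun u => ?_
    rw [norm_mul]
    have h1 : ‖(if c ≤ u then (1 : ℝ) else 0)‖ ≤ 1 := by split_ifs <;> simp
    calc ‖deriv w u‖ * ‖(if c ≤ u then (1 : ℝ) else 0)‖ ≤ K * 1 :=
          mul_le_mul (norm_deriv_le_of_lipschitz hw) h1 (norm_nonneg _) K.2
      _ = K := mul_one _

/-- the integrand as a finite sum -/
theorem integrand_eq (hT : 0 < T) {u : ℝ} (hu : u ≤ β) :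
    deriv w u * G a b (u * T) = ∑ p ∈ idx a b (Real.exp (T * β)),
      g a b p * (deriv w u * (if Real.log p / T ≤ u then 1 else 0)) := by
  rw [G_ind (V := T * β) (by rw [mul_comm]; exact mul_le_mul_of_nonneg_left hu hT.le), Finset.mul_sum]
  refine Finset.sum_congr rfl fun p _ => ?_
  simp only [div_le_iff₀ hT]
  ring

theorem wG_int (hw : LipschitzWith K w) (hT : 0 < T) {x : ℝ} :
    IntegrableOn (fun u => deriv w u * G a b (u * T)) (Ioc x β) := by
  have h1 : IntegrableOn (fun u => ∑ p ∈ idx a b (Real.exp (T * β)),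
      g a b p * (deriv w u * (if Real.log p / T ≤ u then 1 else 0))) (Ioc x β) :=
    integrable_finsetSum _ fun p _ => (ind_integrable hw _ _ _).const_mul _
  exact h1.congr_fun (fun u hu => (integrand_eq hT hu.2).symm) measurableSet_Ioc

/-- **partial summation** -/
theorem abel (hw : LipschitzWith K w) (hβ : 0 < β) (hs : ∀ u, β < u → w u = 0) (hT : 0 < T) :
    mean a b w β (Real.exp T) = -∫ u in Ioc 0 β, deriv w u * G a b (u * T) := by
  rw [setIntegral_congr_fun measurableSet_Ioc (fun u hu => integrand_eq (a := a) (b := b) hT hu.2),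
    integral_finsetSum _ fun p _ => (ind_integrable hw _ _ _).const_mul _, mean_exp,
    ← Finset.sum_neg_distrib]
  refine Finset.sum_congr rfl fun p hp => ?_
  rw [mem_idx_exp] at hp
  have hp1 : (1 : ℝ) < p := by exact_mod_cast hp.2.1.one_lt
  have hc : 0 < Real.log p / T := div_pos (Real.log_pos hp1) hT
  have hcb : Real.log p / T ≤ β := by
    rw [div_le_iff₀ hT, mul_comm]
    exact hp.1
  rw [integral_const_mul, ind_int hw hs hc hcb]
  ring

end

end Pool.Agent.Q284.K
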