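import Pool.Agent.Q284.K.Abel

/-!
# The law for Lipschitz weights from the law in the mean
-/

set_option autoImplicit false

open MeasureTheory Filter Topology Set Classical
open Pool.Agent.W263.BSD

namespace Pool.Agent.Q284.K

variable {a b : ℤ}

/-- `J(w) = ∫_0^∞ (w(u) - 1_{u ≤ 1}) du/u` -/
noncomputable def J (w : ℝ → ℝ) : ℝ := ∫ u in Ioi (0 : ℝ), (w u - if u ≤ 1 then 1 else 0) / u

section

variable {w : ℝ → ℝ} {K : NNReal} {β T : ℝ}

theorem w_near (hw : LipschitzWith K w) (h0 : w 0 = 1) {u : ℝ} (hu : 0 ≤ u) : |w u - 1| ≤ K * u := by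
  have h := hw.dist_le_mul u 0
  rwa [Real.dist_eq, Real.dist_eq, h0, sub_zero, abs_of_nonneg hu] at h

theorem w_abs (hw : LipschitzWith K w) (hβ : 0 < β) (hs : ∀ u, β < u → w u = 0) {u : ℝ}
    (hu : 0 ≤ u) : |w u| ≤ K * β := by
  have hK : (0 : ℝ) ≤ K := K.2
  rcases le_or_gt u β with h | h
  · have h1 := hw.dist_le_mul u β
    rw [Real.dist_eq, Real.dist_eq, w_beta hw hs, sub_zero] at h1
    refine h1.trans (mul_le_mul_of_nonneg_left ?_ hK)
    rw [abs_le]
    constructor <;> linarith
  · rw [hs u h, abs_zero]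
    positivity

theorem jf_meas (hw : LipschitzWith K w) :
    Measurable fun u : ℝ => (w u - if u ≤ 1 then (1 : ℝ) else 0) / u :=
  (hw.continuous.measurable.sub
    (Measurable.ite measurableSet_Iic measurable_const measurable_const)).div measurable_id

theorem jf_bound (hw : LipschitzWith K w) (h0 : w 0 = 1) (hβ : 0 < β) (hs : ∀ u, β < u → w u = 0)
    {u : ℝ} (hu : 0 < u) : |(w u - if u ≤ 1 then (1 : ℝ) else 0) / u| ≤ K + K * β := by
  have hK : (0 : ℝ) ≤ K := K.2
  rw [abs_div, abs_of_pos hu, div_le_iff₀ hu]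
  split_ifs with h
  · have := w_near hw h0 hu.le
    have h2 : 0 ≤ K * β * u := by positivity
    linarith
  · rw [sub_zero]
    push Not at h
    have h1 := w_abs hw hβ hs hu.le
    have h2 : 0 ≤ K * β := by positivity
    have h3 : 0 ≤ (K : ℝ) * u := by positivity
    nlinarith

theorem jf_int (hw : LipschitzWith K w) (h0 : w 0 = 1) (hβ : 0 < β) (hs : ∀ u, β < u → w u = 0)
    {x y : ℝ} (hx : 0 ≤ x) :
    IntegrableOn (fun u : ℝ => (w u - if u ≤ 1 then (1 : ℝ) else 0) / u) (Ioc x y) := by
  refine Measure.integrableOn_of_bounded (M := K + K * β) (by simp)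
    (jf_meas hw).aestronglyMeasurable ?_
  rw [ae_restrict_iff' measurableSet_Ioc]
  exact Eventually.of_forall fun u hu => jf_bound hw h0 hβ hs (hx.trans_lt hu.1)

theorem J_eq (hs : ∀ u, β < u → w u = 0) :
    J w = ∫ u in Ioc 0 (max β 1), (w u - if u ≤ 1 then (1 : ℝ) else 0) / u := by
  unfold J
  have h1 : Ioc 0 (max β 1) ⊆ Ioi (0 : ℝ) := fun u hu => hu.1
  rw [setIntegral_eq_of_subset_of_forall_sdiff_eq_zero measurableSet_Ioi h1]
  rintro u ⟨hu1, hu2⟩
  have hu3 : max β 1 < u := by
    by_contra h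
    push Not at h
    exact hu2 ⟨hu1, h⟩
  have h2 : β < u := (le_max_left _ _).trans_lt hu3
  have h3 : ¬ u ≤ 1 := not_le.2 ((le_max_right _ _).trans_lt hu3)
  rw [hs u h2, if_neg h3]
  simp

/-- the integral of `w(u)/u` near `0` -/
theorem A_close (hw : LipschitzWith K w) (h0 : w 0 = 1) (hβ : 0 < β) (hs : ∀ u, β < u → w u = 0)
    {ε : ℝ} (hε : 0 < ε) (hε1 : ε ≤ 1) (hεβ : ε ≤ β) :
    |(∫ u in ε..β, w u / u) + Real.log ε - J w| ≤ (K + K * β) * ε := by
  have hM1 : (1 : ℝ) ≤ max β 1 := le_max_right _ _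
  have hMβ : β ≤ max β 1 := le_max_left _ _
  set M := max β 1 with hM
  have hεM : ε ≤ M := hε1.trans hM1
  set jf : ℝ → ℝ := fun u => (w u - if u ≤ 1 then (1 : ℝ) else 0) / u with hjf
  have h1 : J w = (∫ u in (0 : ℝ)..ε, jf u) + ∫ u in ε..M, jf u := by
    rw [J_eq hs, intervalIntegral.integral_add_adjacent_intervals,
      intervalIntegral.integral_of_le (hε.le.trans hεM)]
    · rw [intervalIntegrable_iff_integrableOn_Ioc_of_le hε.le]
      exact jf_int hw h0 hβ hs le_rfl
    · rw [intervalIntegrable_iff_integrableOn_Ioc_of_le hεM]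
      exact jf_int hw h0 hβ hs hε.le
  -- the two parts of the second integral
  have hwi : ∀ x y : ℝ, 0 < x → x ≤ y → IntervalIntegrable (fun u => w u / u) volume x y := by
    intro x y hx hxy
    refine ContinuousOn.intervalIntegrable ?_
    rw [uIcc_of_le hxy]
    exact hw.continuous.continuousOn.div continuousOn_id fun u hu => (hx.trans_le hu.1).ne'
  have hoi : ∀ x y : ℝ, IntervalIntegrable
      (fun u : ℝ => (if u ≤ 1 then (1 : ℝ) else 0) / u) volume x y → True := fun _ _ _ => trivial
  have h2 : ∫ u in ε..M, w u / u = ∫ u in ε..β, w u / u := by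
    rw [← intervalIntegral.integral_add_adjacent_intervals (hwi ε β hε hεβ) (hwi β M hβ hMβ)]
    have : ∫ u in β..M, w u / u = ∫ u in β..M, (0 : ℝ) := by
      refine intervalIntegral.integral_congr_ae (Eventually.of_forall fun u hu => ?_)
      rw [uIoc_of_le hMβ] at hu
      rw [hs u hu.1, zero_div]
    rw [this]
    simp
  have hind : IntegrableOn (fun u : ℝ => (if u ≤ 1 then (1 : ℝ) else 0) / u) (Ioc ε M) := by
    refine Measure.integrableOn_of_bounded (M := 1 / ε) (by simp) ?_ ?_
    · exact ((Measurable.ite measurableSet_Iic measurable_const measurable_const).div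
        measurable_id).aestronglyMeasurable
    · rw [ae_restrict_iff' measurableSet_Ioc]
      refine Eventually.of_forall fun u hu => ?_
      have hu0 : 0 < u := hε.trans hu.1
      rw [Real.norm_eq_abs, abs_div, abs_of_pos hu0]
      have h3 : |(if u ≤ 1 then (1 : ℝ) else 0)| ≤ 1 := by split_ifs <;> simp
      exact div_le_div₀ zero_le_one h3 hε hu.1.le
  have h3 : ∫ u in Ioc ε M, (if u ≤ 1 then (1 : ℝ) else 0) / u = -Real.log ε := by
    have e1 : (fun u : ℝ => (if u ≤ 1 then (1 : ℝ) else 0) / u) = (Iic 1).indicator fun u => 1 / u := by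
      ext u
      rw [indicator_apply]
      simp only [mem_Iic]
      split_ifs <;> simp
    rw [e1, setIntegral_indicator measurableSet_Iic]
    have e2 : Ioc ε M ∩ Iic 1 = Ioc ε 1 := by
      ext u
      simp only [mem_inter_iff, mem_Ioc, mem_Iic]
      constructor
      · rintro ⟨⟨h4, _⟩, h5⟩
        exact ⟨h4, h5⟩
      · rintro ⟨h4, h5⟩
        exact ⟨⟨h4, h5.trans hM1⟩, h5⟩
    rw [e2, ← intervalIntegral.integral_of_le hε1, integral_one_div_of_pos hε one_pos, one_div,
      Real.log_inv]
  have h4 : ∫ u in ε..M, jf u = (∫ u in ε..β, w u / u) + Real.log ε := by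
    have e1 : ∫ u in ε..M, jf u = (∫ u in ε..M, w u / u) -
        ∫ u in Ioc ε M, (if u ≤ 1 then (1 : ℝ) else 0) / u := by
      rw [intervalIntegral.integral_of_le hεM, intervalIntegral.integral_of_le hεM,
        ← integral_sub ((intervalIntegrable_iff_integrableOn_Ioc_of_le hεM).1 (hwi ε M hε hεM)) hind]
      refine setIntegral_congr_fun measurableSet_Ioc fun u _ => ?_
      rw [hjf]
      simp only
      rw [sub_div]
    rw [e1, h3, h2]
    ring
  have h5 : |∫ u in (0 : ℝ)..ε, jf u| ≤ (K + K * β) * ε := by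
    have := intervalIntegral.norm_integral_le_of_norm_le_const (a := 0) (b := ε) (f := jf)
      (C := K + K * β) fun u hu => by
        rw [uIoc_of_le hε.le] at hu
        exact jf_bound hw h0 hβ hs hu.1
    rwa [sub_zero, abs_of_pos hε] at this
  have h6 : (∫ u in ε..β, w u / u) + Real.log ε - J w = -∫ u in (0 : ℝ)..ε, jf u := by
    rw [h1, h4]
    ring
  rw [h6, abs_neg]
  exact h5

theorem log_lip {ε : ℝ} (hε : 0 < ε) {x y : ℝ} (hx : ε ≤ x) (hy : ε ≤ y) :
    |Real.log x - Real.log y| ≤ 1 / ε * |x - y| := by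
  have key : ∀ x y : ℝ, ε ≤ x → x ≤ y → |Real.log y - Real.log x| ≤ 1 / ε * |y - x| := by
    intro x y hx hxy
    have hx0 : 0 < x := hε.trans_le hx
    have hy0 : 0 < y := hx0.trans_le hxy
    have h1 : 0 ≤ Real.log y - Real.log x := sub_nonneg.2 (Real.log_le_log hx0 hxy)
    rw [abs_of_nonneg h1, abs_of_nonneg (sub_nonneg.2 hxy), ← Real.log_div hy0.ne' hx0.ne']
    have h2 := Real.log_le_sub_one_of_pos (div_pos hy0 hx0)
    have h3 : y / x - 1 = 1 / x * (y - x) := by field_simp
    rw [h3] at h2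
    refine h2.trans (mul_le_mul_of_nonneg_right ?_ (sub_nonneg.2 hxy))
    exact one_div_le_one_div_of_le hε hx
  rcases le_total x y with h | h
  · rw [abs_sub_comm, abs_sub_comm x y]
    exact key x y hx h
  · exact key y x hy h

/-- integration by parts -/
theorem parts (hw : LipschitzWith K w) (hs : ∀ u, β < u → w u = 0) {ε : ℝ} (hε : 0 < ε)
    (hεβ : ε ≤ β) (m c : ℝ) :
    ∫ u in ε..β, deriv w u * (m * Real.log (u / ε) + c) =
      -(w ε * c) - m * ∫ u in ε..β, w u / u := by
  have hac1 : AbsolutelyContinuousOnInterval w ε β :=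
    (hw.lipschitzOnWith (s := uIcc ε β)).absolutelyContinuousOnInterval
  have hac2 : AbsolutelyContinuousOnInterval (fun u => m * Real.log (u / ε) + c) ε β := by
    refine LipschitzOnWith.absolutelyContinuousOnInterval (K := Real.toNNReal (|m| * (1 / ε))) ?_
    refine LipschitzOnWith.of_dist_le_mul fun x hx y hy => ?_
    rw [uIcc_of_le hεβ] at hx hy
    have hx0 : 0 < x := hε.trans_le hx.1
    have hy0 : 0 < y := hε.trans_le hy.1
    rw [Real.dist_eq, Real.dist_eq, Real.coe_toNNReal _ (by positivity)]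
    have e1 : m * Real.log (x / ε) + c - (m * Real.log (y / ε) + c) =
        m * (Real.log x - Real.log y) := by
      rw [Real.log_div hx0.ne' hε.ne', Real.log_div hy0.ne' hε.ne']
      ring
    rw [e1, abs_mul, mul_assoc]
    exact mul_le_mul_of_nonneg_left (log_lip hε hx.1 hy.1) (abs_nonneg _)
  have h1 := AbsolutelyContinuousOnInterval.integral_mul_deriv_eq_deriv_mul hac2 hac1
  have h2 : ∫ u in ε..β, deriv (fun u => m * Real.log (u / ε) + c) u * w u =
      m * ∫ u in ε..β, w u / u := by
    rw [← intervalIntegral.integral_const_mul]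
    refine intervalIntegral.integral_congr fun u hu => ?_
    rw [uIcc_of_le hεβ] at hu
    have hu0 : 0 < u := hε.trans_le hu.1
    have h3 : HasDerivAt (fun u => m * Real.log (u / ε) + c) (m * (1 / ε / (u / ε))) u := by
      have h4 : HasDerivAt (fun u : ℝ => u / ε) (1 / ε) u := (hasDerivAt_id u).div_const ε
      exact ((h4.log (div_pos hu0 hε).ne').const_mul m).add_const c
    rw [h3.deriv]
    field_simp
  rw [h2, w_beta hw hs, mul_zero, div_self hε.ne', Real.log_one, mul_zero, zero_add] at h1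
  have h3 : ∫ u in ε..β, deriv w u * (m * Real.log (u / ε) + c) =
      ∫ u in ε..β, (m * Real.log (u / ε) + c) * deriv w u :=
    intervalIntegral.integral_congr fun u _ => mul_comm _ _
  rw [h3, h1]
  ring

theorem G_bdd (a b : ℤ) (V : ℝ) : ∃ B : ℝ, 0 ≤ B ∧ ∀ v ≤ V, |G a b v| ≤ B := by
  refine ⟨∑ p ∈ idx a b (Real.exp V), |g a b p|, Finset.sum_nonneg fun _ _ => abs_nonneg _,
    fun v hv => ?_⟩
  rw [G_ind hv]
  refine (Finset.abs_sum_le_sum_abs _ _).trans (Finset.sum_le_sum fun p _ => ?_)
  rw [abs_mul]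
  have h1 : |(if Real.log p ≤ v then (1 : ℝ) else 0)| ≤ 1 := by split_ifs <;> simp
  calc |g a b p| * _ ≤ |g a b p| * 1 := mul_le_mul_of_nonneg_left h1 (abs_nonneg _)
    _ = _ := mul_one _

theorem G_int (a b : ℤ) (hT : 0 < T) (x y : ℝ) :
    IntegrableOn (fun u => G a b (u * T)) (Ioc x y) := by
  have h1 : IntegrableOn (fun u => ∑ p ∈ idx a b (Real.exp (T * y)),
      g a b p * (if Real.log p / T ≤ u then (1 : ℝ) else 0)) (Ioc x y) := by
    refine integrable_finsetSum _ fun p _ => Integrable.const_mul ?_ _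
    refine Measure.integrableOn_of_bounded (M := 1) (by simp) ?_ ?_
    · exact (Measurable.ite measurableSet_Ici measurable_const measurable_const).aestronglyMeasurable
    · refine Eventually.of_forall fun u => ?_
      split_ifs <;> simp
  refine h1.congr_fun (fun u hu => ?_) measurableSet_Ioc
  simp only
  rw [G_ind (V := T * y) (by rw [mul_comm]; exact mul_le_mul_of_nonneg_left hu.2 hT.le)]
  refine Finset.sum_congr rfl fun p _ => ?_
  simp only [div_le_iff₀ hT]

/-- **the law for Lipschitz weights** -/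
theorem law {m c : ℝ} (hL : Tendsto (fun V : ℝ => (∫ v in (1 : ℝ)..V,
      |G a b v - (m * Real.log v + c)|) / V) atTop (𝓝 0))
    (hw : LipschitzWith K w) (h0 : w 0 = 1) (hβ : 0 < β) (hs : ∀ u, β < u → w u = 0) :
    Tendsto (fun T : ℝ => mean a b w β (Real.exp T) - m * Real.log T) atTop (𝓝 (m * J w + c)) := by
  have hK : (0 : ℝ) ≤ K := K.2
  obtain ⟨B, hB0, hB⟩ := G_bdd a b 1
  set h : ℝ → ℝ := fun v => G a b v - (m * Real.log v + c) with hh
  have hV : Tendsto (fun T : ℝ => (K * B + K * |c| + |m| * (K + K * β)) * (1 / T) +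
      K * β * ((∫ v in (1 : ℝ)..(β * T), |h v|) / (β * T))) atTop (𝓝 0) := by
    have e1 : Tendsto (fun T : ℝ => β * T) atTop atTop := tendsto_id.const_mul_atTop hβ
    have e2 := (hL.comp e1).const_mul (K * β)
    have e3 : Tendsto (fun T : ℝ => 1 / T) atTop (𝓝 0) := by
      simpa using tendsto_inv_atTop_zero (𝕜 := ℝ)
    have e4 := (e3.const_mul (K * B + K * |c| + |m| * (K + K * β))).add e2
    rw [mul_zero, mul_zero, add_zero] at e4
    exact e4
  rw [tendsto_iff_norm_sub_tendsto_zero]
  refine squeeze_zero' (Eventually.of_forall fun T => norm_nonneg _) ?_ hV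
  filter_upwards [eventually_ge_atTop (max 1 (1 / β))] with T hT
  have hT1 : 1 ≤ T := (le_max_left _ _).trans hT
  have hTβ : 1 / β ≤ T := (le_max_right _ _).trans hT
  have hT0 : 0 < T := by linarith
  set ε : ℝ := 1 / T with hε
  have hε0 : 0 < ε := by positivity
  have hε1 : ε ≤ 1 := by
    rw [hε, div_le_one hT0]
    exact hT1
  have hεβ : ε ≤ β := by
    rw [hε, div_le_iff₀ hT0]
    rw [div_le_iff₀ hβ] at hTβ
    linarith
  have hεT : ∀ u : ℝ, u / ε = u * T := fun u => by
    rw [hε]
    field_simp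
  -- split the integral
  have s1 : mean a b w β (Real.exp T) = -(∫ u in Ioc 0 ε, deriv w u * G a b (u * T)) -
      ∫ u in Ioc ε β, deriv w u * G a b (u * T) := by
    rw [abel hw hβ hs hT0, ← Ioc_union_Ioc_eq_Ioc hε0.le hεβ, setIntegral_union
      (Ioc_disjoint_Ioc_of_le le_rfl) measurableSet_Ioc ((wG_int (β := β) hw hT0).mono_set
        (Ioc_subset_Ioc_right hεβ)) (wG_int hw hT0)]
    ring
  have hgi : IntegrableOn (fun u => deriv w u * (m * Real.log (u / ε) + c)) (Ioc ε β) := by
    have : ContinuousOn (fun u => m * Real.log (u / ε) + c) (Icc ε β) := by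
      refine ContinuousOn.add (ContinuousOn.mul continuousOn_const ?_) continuousOn_const
      refine ContinuousOn.log (continuousOn_id.div_const ε) fun u hu => ?_
      exact (div_pos (hε0.trans_le hu.1) hε0).ne'
    obtain ⟨C, hC⟩ := isCompact_Icc.exists_bound_of_continuousOn this
    refine Measure.integrableOn_of_bounded (M := K * C) (by simp) ?_ ?_
    · refine ((measurable_deriv w).mul ?_).aestronglyMeasurable
      fun_prop
    · rw [ae_restrict_iff' measurableSet_Ioc]
      refine Eventually.of_forall fun u hu => ?_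
      rw [norm_mul]
      exact mul_le_mul (norm_deriv_le_of_lipschitz hw) (hC u ⟨hu.1.le, hu.2⟩) (norm_nonneg _) hK
  have hhi : IntegrableOn (fun u => h (u * T)) (Ioc ε β) := by
    have h1 := G_int a b hT0 ε β
    have h2 : IntegrableOn (fun u => m * Real.log (u * T) + c) (Ioc ε β) := by
      have : ContinuousOn (fun u => m * Real.log (u * T) + c) (Icc ε β) := by
        refine ContinuousOn.add (ContinuousOn.mul continuousOn_const ?_) continuousOn_const
        refine ContinuousOn.log (continuousOn_id.mul continuousOn_const) fun u hu => ?_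
        exact (mul_pos (hε0.trans_le hu.1) hT0).ne'
      exact (this.integrableOn_Icc).mono_set Ioc_subset_Icc_self
    exact h1.sub h2
  have hwh : IntegrableOn (fun u => deriv w u * h (u * T)) (Ioc ε β) := by
    refine Integrable.bdd_mul hhi (measurable_deriv w).aestronglyMeasurable (c := K) ?_
    exact Eventually.of_forall fun u => norm_deriv_le_of_lipschitz hw
  have s2 : ∫ u in Ioc ε β, deriv w u * G a b (u * T) =
      (-(w ε * c) - m * ∫ u in ε..β, w u / u) + ∫ u in Ioc ε β, deriv w u * h (u * T) := by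
    rw [← parts hw hs hε0 hεβ m c, intervalIntegral.integral_of_le hεβ, ← integral_add hgi hwh]
    refine setIntegral_congr_fun measurableSet_Ioc fun u _ => ?_
    simp only [hh, hεT]
    ring
  have b1 : |∫ u in Ioc 0 ε, deriv w u * G a b (u * T)| ≤ K * B * ε := by
    have := norm_setIntegral_le_of_norm_le_const (μ := volume) (s := Ioc 0 ε)
      (f := fun u => deriv w u * G a b (u * T)) (C := K * B) (by simp) fun u hu => by
        rw [norm_mul]
        refine mul_le_mul (norm_deriv_le_of_lipschitz hw) (hB _ ?_) (norm_nonneg _) hK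
        have := mul_le_mul_of_nonneg_right hu.2 hT0.le
        rwa [hε, one_div_mul_cancel hT0.ne'] at this
    rw [Real.norm_eq_abs] at this
    refine this.trans (le_of_eq ?_)
    rw [measureReal_def, Real.volume_Ioc, sub_zero, ENNReal.toReal_ofReal hε0.le]
  have b2 : |∫ u in Ioc ε β, deriv w u * h (u * T)| ≤
      K * β * ((∫ v in (1 : ℝ)..(β * T), |h v|) / (β * T)) := by
    have h1 : ‖∫ u in Ioc ε β, deriv w u * h (u * T)‖ ≤ ∫ u in Ioc ε β, K * |h (u * T)| := by
      refine norm_integral_le_of_norm_le (hhi.abs.const_mul _) (Eventually.of_forall fun u => ?_)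
      rw [norm_mul]
      exact mul_le_mul_of_nonneg_right (norm_deriv_le_of_lipschitz hw) (abs_nonneg _)
    rw [Real.norm_eq_abs, integral_const_mul] at h1
    have h2 : ∫ u in Ioc ε β, |h (u * T)| = (∫ v in (1 : ℝ)..(β * T), |h v|) / T := by
      rw [← intervalIntegral.integral_of_le hεβ,
        intervalIntegral.integral_comp_mul_right (fun v => |h v|) hT0.ne', hε,
        one_div_mul_cancel hT0.ne', smul_eq_mul, div_eq_inv_mul]
    rw [h2] at h1
    refine h1.trans (le_of_eq ?_)
    field_simp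
  have b3 := A_close hw h0 hβ hs hε0 hε1 hεβ
  have hlog : Real.log ε = -Real.log T := by rw [hε, one_div, Real.log_inv]
  rw [hlog] at b3
  have b4 := w_near hw h0 hε0.le
  have e1 : mean a b w β (Real.exp T) - m * Real.log T - (m * J w + c) =
      -(∫ u in Ioc 0 ε, deriv w u * G a b (u * T)) - (∫ u in Ioc ε β, deriv w u * h (u * T)) +
      (w ε - 1) * c + m * ((∫ u in ε..β, w u / u) + -Real.log T - J w) := by
    rw [s1, s2]
    ring
  rw [Real.norm_eq_abs, e1]
  have c3 : |(w ε - 1) * c| ≤ K * ε * |c| := by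
    rw [abs_mul]
    exact mul_le_mul_of_nonneg_right b4 (abs_nonneg _)
  have c4 : |m * ((∫ u in ε..β, w u / u) + -Real.log T - J w)| ≤ |m| * ((K + K * β) * ε) := by
    rw [abs_mul]
    exact mul_le_mul_of_nonneg_left b3 (abs_nonneg _)
  refine (abs_add_le _ _).trans ?_
  refine (add_le_add ((abs_add_le _ _).trans (add_le_add (abs_sub _ _) c3)) c4).trans ?_
  rw [abs_neg]
  have : K * B * ε + K * β * ((∫ v in (1 : ℝ)..(β * T), |h v|) / (β * T)) + K * ε * |c| +
      |m| * ((K + K * β) * ε) = (K * B + K * |c| + |m| * (K + K * β)) * ε +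
      K * β * ((∫ v in (1 : ℝ)..(β * T), |h v|) / (β * T)) := by ring
  linarith

end

end Pool.Agent.Q284.K
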